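import Pool.Agent.helper66.PX.All

/-!
# MP_3938c6_al: algebras with a nonzero quotient that satisfies a polynomial identity

Let `K` be any field of characteristic zero (for example the rationals) and `A` an associative, not
necessarily unital, `K`-algebra of dimension greater than one all of whose proper subalgebras are
nilpotent. If `A` has a nonzero homomorphic image `A'` satisfying some polynomial identity, that is, a
nonzero noncommutative polynomial `p` with coefficients in `K` vanishes under all substitutions of
elements of `A'` for the variables (evaluated in the unitization of `A'`), then `A` is nilpotent.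
-/

set_option autoImplicit false

namespace Pool.Agent.Results.MP_3938c6_al.PIQuotient

theorem result (K : Type*) [Field K] [CharZero K]
    (A : Type*) [NonUnitalRing A] [Module K A] [IsScalarTower K A A] [SMulCommClass K A A]
    (hdim : 1 < Module.rank K A)
    (hprop : ∀ B : NonUnitalSubalgebra K A, B ≠ ⊤ →
      ∃ n : ℕ, ∀ a ∈ B, ∀ l : List A, (∀ x ∈ l, x ∈ B) → l.length = n →
        l.foldl (fun x y => x * y) a = 0)
    (A' : Type*) [NonUnitalRing A'] [Module K A'] [IsScalarTower K A' A'] [SMulCommClass K A' A']
    [Nontrivial A'] (π : A →ₙₐ[K] A') (hπ : Function.Surjective π)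
    (p : FreeAlgebra K ℕ) (hp : p ≠ 0)
    (hid : ∀ x : ℕ → A',
      FreeAlgebra.lift K (fun i => (Unitization.inr (x i) : Unitization K A')) p = 0) :
    ∃ n : ℕ, ∀ a : A, ∀ l : List A, l.length = n → l.foldl (fun x y => x * y) a = 0 :=
  Pool.Agent.PX.all_FI K A hdim hprop A' π hπ p hp hid

end Pool.Agent.Results.MP_3938c6_al.PIQuotient
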